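import Pool.Agent.N309.PD.Cone

/-!
# Singer's conjecture and the lowest part of a complex

Let a group `G` act on a totally ordered set `X` by order-preserving maps and let `D` be a complex of
finitely generated free modules over the complex group algebra, for instance the cellular chain
complex of the universal cover of a finite complex with fundamental group `G`. Let heights in `X` be
given for the basis elements such that the boundary operators do not decrease the heights. We show
that the part of `D` which preserves the heights is again a complex, and prove the strong Morse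
inequalities between the `L²`-Betti numbers of `D` and of this lowest part.

If `X = G` is a left-ordered group, such heights always exist and the lowest part is a complex `Λ` of
complex matrices. So the `L²`-Betti numbers of `D` are at most the dimensions of the cohomology
groups of `Λ`, and the vanishing of the Singer conjecture holds for the complexes for which the
cohomology of `Λ` is concentrated in the middle degree.
-/

set_option autoImplicit false

open scoped Matrix

universe u v

namespace Pool.Agent.Results.MP_f80465_gt.LowestParts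

/-- The matrices of a complex of finitely generated free left modules over the complex group algebra
of `G`: the module in degree `i` consists of the row vectors with `r i` entries, and the boundary
operator from degree `i + 1` to degree `i` is the right multiplication by the matrix `D i`. -/
abbrev Matrices (G : Type u) [Group G] (r : ℕ → ℕ) :=
  ∀ i, Matrix (Fin (r (i + 1))) (Fin (r i)) (MonoidAlgebra ℂ G)

/-- The value at `g` of the convolution `α * f`. -/
noncomputable def conv {G : Type u} [Group G] (α : MonoidAlgebra ℂ G) (f : G → ℂ) (g : G) : ℂ :=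
  ∑ k ∈ α.coeff.support, α.coeff k * f (k⁻¹ * g)

/-- The value at `g` of the convolution `α* * f` with the adjoint of `α`. -/
noncomputable def coconv {G : Type u} [Group G] (α : MonoidAlgebra ℂ G) (f : G → ℂ) (g : G) : ℂ :=
  ∑ k ∈ α.coeff.support, (starRingEnd ℂ) (α.coeff k) * f (k * g)

/-- The square-summable functions on `G × {1, …, k}`. -/
noncomputable abbrev L2 (G : Type u) (k : ℕ) := lp (fun _ : G × Fin k => ℂ) 2

/-- `F` is mapped to zero by the coboundary operator, the matrix `A` acting by convolution. -/
def IsCocycle {G : Type u} [Group G] {k l : ℕ} (A : Matrix (Fin l) (Fin k) (MonoidAlgebra ℂ G))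
    (F : L2 G k) : Prop :=
  ∀ i g, ∑ j, conv (A i j) (fun x => F (x, j)) g = 0

/-- `F` is mapped to zero by the boundary operator, the adjoint of the matrix `A`. -/
def IsCycle {G : Type u} [Group G] {k l : ℕ} (A : Matrix (Fin l) (Fin k) (MonoidAlgebra ℂ G))
    (F : L2 G l) : Prop :=
  ∀ j g, ∑ i, coconv (A i j) (fun x => F (x, i)) g = 0

/-- The square-summable harmonic cochains in degree `i`: the square-summable functions on
`G × Fin (r i)` in the kernels of the coboundary operator (the matrix `D i`, acting by convolution)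
and, if `i` is positive, of the boundary operator (the adjoint of the matrix `D (i - 1)`). They
represent the reduced `ℓ²`-cohomology. -/
noncomputable def harmonic {G : Type u} [Group G] {r : ℕ → ℕ} (D : Matrices G r) :
    (i : ℕ) → Set (L2 G (r i))
  | 0 => {F | IsCocycle (D 0) F}
  | (i + 1) => {F | IsCocycle (D (i + 1)) F ∧ IsCycle (D i) F}

open Classical in
/-- The `i`-th `L²`-Betti number: the von Neumann dimension of the space of harmonic cochains, that
is, the sum over the basis of one minus the squared distance of the basis vector (at the identity of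
`G`) to this space. -/
noncomputable def betti {G : Type u} [Group G] {r : ℕ → ℕ} (D : Matrices G r) (i : ℕ) : ℝ :=
  ∑ j : Fin (r i), (1 - Metric.infDist
    (lp.single 2 ((1 : G), j) (1 : ℂ) : L2 G (r i)) (harmonic D i) ^ 2)

/-- `G` acts on the totally ordered set `X` by order-preserving maps. -/
def OrderPreserving (G : Type u) (X : Type v) [Group G] [MulAction G X] [LinearOrder X] : Prop :=
  ∀ (g : G) (a b : X), a ≤ b → g • a ≤ g • b

/-- Heights of the basis elements, such that the boundary operators do not decrease the heights: the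
basis element `k` in degree `i + 1` has height `w (i + 1) k`, and each term `h • (basis element j)` of
its boundary has the height `h • w i j ≥ w (i + 1) k`. -/
def IsHeight {G : Type u} [Group G] {X : Type v} [MulAction G X] [LinearOrder X] {r : ℕ → ℕ}
    (D : Matrices G r) (w : ∀ i, Fin (r i) → X) : Prop :=
  ∀ i k j h, (D i k j).coeff h ≠ 0 → w (i + 1) k ≤ h • w i j

open Classical in
/-- The lowest part of the complex: the terms of the boundary operators which preserve the heights. -/
noncomputable def lowest {G : Type u} [Group G] {X : Type v} [MulAction G X] {r : ℕ → ℕ}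
    (D : Matrices G r) (w : ∀ i, Fin (r i) → X) : Matrices G r :=
  fun i k j => MonoidAlgebra.ofCoeff ((D i k j).coeff.filter fun h => h • w i j = w (i + 1) k)

/-- The complex matrices of the lowest coefficients, for heights in the group `G` itself: the entry at
`(k, j)` is the coefficient of `D i k j` at the only `h` with `h * w i j = w (i + 1) k`. -/
def lowestMatrix {G : Type u} [Group G] {r : ℕ → ℕ} (D : Matrices G r)
    (w : ∀ i, Fin (r i) → G) (i : ℕ) : Matrix (Fin (r (i + 1))) (Fin (r i)) ℂ :=
  fun k j => (D i k j).coeff (w (i + 1) k * (w i j)⁻¹)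

/-- The dimension of the `i`-th cohomology of the complex `ℂ^(r 0) → ℂ^(r 1) → …` with the
coboundary operators `Λ i`, by the ranks of the matrices. -/
noncomputable def dimH {r : ℕ → ℕ} (Λ : ∀ i, Matrix (Fin (r (i + 1))) (Fin (r i)) ℂ) : ℕ → ℝ
  | 0 => (r 0 : ℝ) - (Λ 0).rank
  | (i + 1) => (r (i + 1) : ℝ) - (Λ (i + 1)).rank - (Λ i).rank

/-- The alternating sum `b n - b (n - 1) + b (n - 2) - … ± b 0`. -/
noncomputable def altSum (b : ℕ → ℝ) (n : ℕ) : ℝ :=
  ∑ i ∈ Finset.range (n + 1), (-1) ^ (n - i) * b i

section proofs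
open Pool.Agent.W649.ZL Pool.Agent.N309.LO Pool.Agent.N309.PD

variable {G : Type u} [Group G]

theorem opM_apply {a b : ℕ} (A : Matrix (Fin a) (Fin b) (MonoidAlgebra ℂ G)) (F : EE G (Fin b))
    (k : Fin a) (g : G) : opM A F (g, k) = ∑ j, conv (A k j) (fun x => F (x, j)) g := by
  rw [← cmp_apply, cmp_opM]
  unfold pr
  rw [sum_apply_EE]
  refine Finset.sum_congr rfl fun j _ => ?_
  rw [Lam_apply]
  unfold conv
  refine Finset.sum_congr rfl fun x _ => ?_
  rw [cmp_apply]

theorem Lam_sig_apply (α : MonoidAlgebra ℂ G) (f : EE G Unit) (g : G) :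
    Lam (sig α) f (g, ()) = coconv α (fun x => f (x, ())) g := by
  rw [Lam_apply]
  unfold coconv
  apply Finset.sum_nbij' (fun k => k⁻¹) (fun k => k⁻¹)
  · intro k hk
    rw [Finsupp.mem_support_iff] at hk ⊢
    rw [sig_coeff] at hk
    intro h
    exact hk (by rw [h, map_zero])
  · intro k hk
    rw [Finsupp.mem_support_iff] at hk ⊢
    rw [sig_coeff, inv_inv]
    intro h
    exact hk ((map_eq_zero _).1 h)
  · intro k _
    exact inv_inv k
  · intro k _
    exact inv_inv k
  · intro k _
    rw [sig_coeff]

theorem opM_adj_apply {a b : ℕ} (A : Matrix (Fin a) (Fin b) (MonoidAlgebra ℂ G))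
    (F : EE G (Fin a)) (j : Fin b) (g : G) :
    opM (adjM A) F (g, j) = ∑ k, coconv (A k j) (fun x => F (x, k)) g := by
  rw [← cmp_apply, cmp_opM]
  unfold pr
  rw [sum_apply_EE]
  refine Finset.sum_congr rfl fun k _ => ?_
  change Lam (sig (A k j)) (cmp k F) (g, ()) = _
  rw [Lam_sig_apply]
  congr 1
  funext x
  rw [cmp_apply]

theorem ker_iff {a b : ℕ} (A : Matrix (Fin a) (Fin b) (MonoidAlgebra ℂ G)) (F : EE G (Fin b)) :
    (∀ k g, ∑ j, conv (A k j) (fun x => F (x, j)) g = 0) ↔ opM A F = 0 := by
  constructor
  · intro h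
    ext ⟨g, k⟩
    rw [opM_apply, h]
    rfl
  · intro h k g
    rw [← opM_apply, h]
    rfl

theorem coker_iff {a b : ℕ} (A : Matrix (Fin a) (Fin b) (MonoidAlgebra ℂ G)) (F : EE G (Fin a)) :
    (∀ j g, ∑ k, coconv (A k j) (fun x => F (x, k)) g = 0) ↔ opM (adjM A) F = 0 := by
  constructor
  · intro h
    ext ⟨g, j⟩
    rw [opM_adj_apply, h]
    rfl
  · intro h j g
    rw [← opM_adj_apply, h]
    rfl

theorem harmonic_zero {r : ℕ → ℕ} (D : Matrices G r) :
    harmonic D 0 = (LinearMap.ker (opM (D 0) : EE G (Fin (r 0)) →ₗ[ℂ] EE G (Fin (r 1))) :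
      Set (EE G (Fin (r 0)))) := by
  ext F
  exact ker_iff (D 0) F

theorem harmonic_succ {r : ℕ → ℕ} (D : Matrices G r) (i : ℕ) :
    harmonic D (i + 1) = (harm (opM (D (i + 1))) (opM (D i)) : Set (EE G (Fin (r (i + 1))))) := by
  ext F
  have h1 := ker_iff (D (i + 1)) F
  have h2 := coker_iff (D i) F
  have h3 := ContinuousLinearMap.orthogonal_range (opM (D i))
  rw [opM_adj] at h3
  unfold harm
  rw [h3]
  exact and_congr h1 h2

theorem betti_eq {r : ℕ → ℕ} (D : Matrices G r) (i : ℕ)
    (P : Submodule ℂ (EE G (Fin (r i)))) (hP : IsClosed (P : Set (EE G (Fin (r i)))))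
    (h : harmonic D i = (P : Set (EE G (Fin (r i))))) : betti D i = vd P := by
  classical
  rw [vd_eq_infDist P hP]
  unfold betti
  rw [h]
  refine Finset.sum_congr rfl fun j _ => ?_
  have e : (lp.single 2 ((1 : G), j) (1 : ℂ) : lp (fun _ : G × Fin (r i) => ℂ) 2)
      = (dl ((1 : G), j) : EE G (Fin (r i))) := by
    unfold dl
    congr 1
    exact Subsingleton.elim _ _
  rw [← e]

/-- the dimension of the kernel of the coboundary operator -/
noncomputable def kap {r : ℕ → ℕ} (D : Matrices G r) (i : ℕ) : ℝ :=
  vd (LinearMap.ker (opM (D i) : EE G (Fin (r i)) →ₗ[ℂ] EE G (Fin (r (i + 1)))))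

theorem betti_zero {r : ℕ → ℕ} (D : Matrices G r) : betti D 0 = kap D 0 :=
  betti_eq D 0 _ (ContinuousLinearMap.isClosed_ker _) (harmonic_zero D)

theorem betti_succ {r : ℕ → ℕ} (D : Matrices G r) (hD : ∀ i, D (i + 1) * D i = 0) (i : ℕ) :
    betti D (i + 1) = kap D (i + 1) + kap D i - r i := by
  have h0 : ∀ F, opM (D (i + 1)) (opM (D i) F) = 0 := by
    intro F
    rw [opM_eq_zero]
    intro k
    rw [pr_opM]
    have e : D (i + 1) k ᵥ* D i = 0 := by
      funext j
      exact congrFun (congrFun (hD i) k) j
    rw [e, pr_zero_left]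
  rw [betti_eq D (i + 1) _ (harm_closed _ _) (harmonic_succ D i), vd_harm_eq _ _ (opM_eqv _) h0,
    Fintype.card_fin]
  rfl

theorem betti_nonneg {r : ℕ → ℕ} (D : Matrices G r) (i : ℕ) : 0 ≤ betti D i := by
  cases i with
  | zero =>
    rw [betti_zero]
    exact vd_nonneg _
  | succ i =>
    rw [betti_eq D (i + 1) _ (harm_closed _ _) (harmonic_succ D i)]
    exact vd_nonneg _

/-- the correction term of the alternating sums -/
noncomputable def cor (r : ℕ → ℕ) : ℕ → ℝ
  | 0 => 0
  | (n + 1) => (r n : ℝ) - cor r n

theorem altSum_succ (b : ℕ → ℝ) (n : ℕ) : altSum b (n + 1) = b (n + 1) - altSum b n := by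
  unfold altSum
  rw [Finset.sum_range_succ _ (n + 1), Nat.sub_self, pow_zero, one_mul, add_comm, sub_eq_add_neg,
    ← Finset.sum_neg_distrib]
  congr 1
  refine Finset.sum_congr rfl fun i hi => ?_
  have h : n + 1 - i = (n - i) + 1 := by
    have := Finset.mem_range.1 hi
    omega
  rw [h, pow_succ]
  ring

theorem altSum_eq {r : ℕ → ℕ} (b κ : ℕ → ℝ) (h0 : b 0 = κ 0)
    (h : ∀ i, b (i + 1) = κ (i + 1) + κ i - r i) (n : ℕ) : altSum b n = κ n - cor r n := by
  induction n with
  | zero =>
    unfold altSum cor
    simp [h0]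
  | succ n ih =>
    rw [altSum_succ, ih, h]
    change _ = κ (n + 1) - ((r n : ℝ) - cor r n)
    ring

theorem lowest_coeff {X : Type v} [MulAction G X] {r : ℕ → ℕ} (D : Matrices G r)
    (w : ∀ i, Fin (r i) → X) (i : ℕ) (k : Fin (r (i + 1))) (j : Fin (r i)) (h : G) :
    (h • w i j = w (i + 1) k → (lowest D w i k j).coeff h = (D i k j).coeff h) ∧
    (h • w i j ≠ w (i + 1) k → (lowest D w i k j).coeff h = 0) := by
  classical
  constructor
  · intro hh
    exact Finsupp.filter_apply_pos _ _ hh
  · intro hh
    exact Finsupp.filter_apply_neg _ _ hh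

theorem kap_le {X : Type v} [MulAction G X] [LinearOrder X] (hX : OrderPreserving G X) {r : ℕ → ℕ}
    (D : Matrices G r) (w : ∀ i, Fin (r i) → X) (hw : IsHeight D w) (i : ℕ) :
    kap D i ≤ kap (lowest D w) i := by
  classical
  apply level_le (X := X) hX (w i) (w (i + 1)) _ _ (opM_eqv _) (opM_eqv _)
  · intro j t k hne
    rw [opM_dl, inv_one, mul_one] at hne
    exact hw i k j t hne
  · intro j t k he
    rw [opM_dl, opM_dl, inv_one, mul_one]
    exact (lowest_coeff D w i k j t).1 he.symm
  · intro j t k he
    rw [opM_dl, inv_one, mul_one]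
    exact (lowest_coeff D w i k j t).2 (fun h => he h.symm)

/-- the coefficients of the product of the lowest parts -/
theorem lowest_mul_coeff {X : Type v} [MulAction G X] [LinearOrder X] (hX : OrderPreserving G X)
    {r : ℕ → ℕ} (D : Matrices G r) (w : ∀ i, Fin (r i) → X) (hw : IsHeight D w) (i : ℕ)
    (l : Fin (r (i + 1 + 1))) (j : Fin (r i)) (g : G) :
    (g • w i j = w (i + 1 + 1) l → ((lowest D w (i + 1) * lowest D w i) l j).coeff g
      = ((D (i + 1) * D i) l j).coeff g) ∧
    (g • w i j ≠ w (i + 1 + 1) l → ((lowest D w (i + 1) * lowest D w i) l j).coeff g = 0) := by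
  classical
  have hsum : ∀ (A : Matrices G r), ((A (i + 1) * A i) l j).coeff g
      = ∑ k, (A (i + 1) l k).coeff.sum fun h c => c * (A i k j).coeff (h⁻¹ * g) := by
    intro A
    have e : (A (i + 1) * A i) l j = ∑ k, A (i + 1) l k * A i k j := rfl
    rw [e, MonoidAlgebra.coeff_sum, Finsupp.finsetSum_apply]
    exact Finset.sum_congr rfl fun k _ => MonoidAlgebra.coeff_mul_apply_left _ _ _
  have hsupp : ∀ k, (lowest D w (i + 1) l k).coeff.sum
      (fun h c => c * (lowest D w i k j).coeff (h⁻¹ * g))
      = ∑ h ∈ (D (i + 1) l k).coeff.support, (lowest D w (i + 1) l k).coeff h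
        * (lowest D w i k j).coeff (h⁻¹ * g) := by
    intro k
    apply Finsupp.sum_of_support_subset
    · intro h hh
      rw [Finsupp.mem_support_iff] at hh ⊢
      intro h0
      apply hh
      by_cases he : h • w (i + 1) k = w (i + 1 + 1) l
      · rw [(lowest_coeff D w (i + 1) l k h).1 he, h0]
      · exact (lowest_coeff D w (i + 1) l k h).2 he
    · intro h _
      rw [zero_mul]
  constructor
  · intro hg
    rw [hsum, hsum]
    refine Finset.sum_congr rfl fun k _ => ?_
    rw [hsupp]
    refine Finset.sum_congr rfl fun h hh => ?_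
    rw [Finsupp.mem_support_iff] at hh
    change (lowest D w (i + 1) l k).coeff h * (lowest D w i k j).coeff (h⁻¹ * g)
      = (D (i + 1) l k).coeff h * (D i k j).coeff (h⁻¹ * g)
    have h1 := hw (i + 1) l k h hh
    by_cases h0 : (D i k j).coeff (h⁻¹ * g) = 0
    · have h2 : (lowest D w i k j).coeff (h⁻¹ * g) = 0 := by
        by_cases he : (h⁻¹ * g) • w i j = w (i + 1) k
        · rw [(lowest_coeff D w i k j _).1 he, h0]
        · exact (lowest_coeff D w i k j _).2 he
      rw [h0, h2, mul_zero, mul_zero]
    · have h2 := hX h _ _ (hw i k j _ h0)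
      rw [smul_smul, mul_inv_cancel_left, hg] at h2
      have h3 : h • w (i + 1) k = w (i + 1 + 1) l := le_antisymm h2 h1
      have h4 : (h⁻¹ * g) • w i j = w (i + 1) k := by
        rw [mul_smul, hg, ← h3, inv_smul_smul]
      rw [(lowest_coeff D w (i + 1) l k h).1 h3, (lowest_coeff D w i k j _).1 h4]
  · intro hg
    rw [hsum]
    apply Finset.sum_eq_zero
    intro k _
    rw [hsupp]
    apply Finset.sum_eq_zero
    intro h _
    by_cases h3 : h • w (i + 1) k = w (i + 1 + 1) l
    · by_cases h4 : (h⁻¹ * g) • w i j = w (i + 1) k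
      · exfalso
        apply hg
        rw [← h3, ← h4, smul_smul, mul_inv_cancel_left]
      · rw [(lowest_coeff D w i k j _).2 h4, mul_zero]
    · rw [(lowest_coeff D w (i + 1) l k h).2 h3, zero_mul]

theorem lowest_comp {X : Type v} [MulAction G X] [LinearOrder X] (hX : OrderPreserving G X)
    {r : ℕ → ℕ} (D : Matrices G r) (hD : ∀ i, D (i + 1) * D i = 0) (w : ∀ i, Fin (r i) → X)
    (hw : IsHeight D w) (i : ℕ) : lowest D w (i + 1) * lowest D w i = 0 := by
  ext l j g
  by_cases hg : g • w i j = w (i + 1 + 1) l
  · rw [(lowest_mul_coeff hX D w hw i l j g).1 hg, hD]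
  · rw [(lowest_mul_coeff hX D w hw i l j g).2 hg]
    rfl

theorem betti_mono {r : ℕ → ℕ} (D B : Matrices G r) (hD : ∀ i, D (i + 1) * D i = 0)
    (hB : ∀ i, B (i + 1) * B i = 0) (h : ∀ i, kap D i ≤ kap B i) (i : ℕ) :
    betti D i ≤ betti B i := by
  cases i with
  | zero =>
    rw [betti_zero, betti_zero]
    exact h 0
  | succ i =>
    rw [betti_succ D hD, betti_succ B hB]
    linarith [h i, h (i + 1)]

theorem altSum_mono {r : ℕ → ℕ} (D B : Matrices G r) (hD : ∀ i, D (i + 1) * D i = 0)
    (hB : ∀ i, B (i + 1) * B i = 0) (h : ∀ i, kap D i ≤ kap B i) (n : ℕ) :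
    altSum (betti D) n ≤ altSum (betti B) n := by
  rw [altSum_eq (r := r) _ (kap D) (betti_zero D) (betti_succ D hD),
    altSum_eq (r := r) _ (kap B) (betti_zero B) (betti_succ B hB)]
  linarith [h n]

/-- columns which give the rank -/
theorem exists_cols {a b : ℕ} (Λ : Matrix (Fin a) (Fin b) ℂ) : ∃ S : Finset (Fin b),
    S.card = Λ.rank ∧ ∀ c : Fin b → ℂ, (∀ j, j ∉ S → c j = 0) → Λ *ᵥ c = 0 → c = 0 := by
  classical
  obtain ⟨f, hf1, hf2, hf3⟩ := Submodule.exists_fun_fin_finrank_span_eq ℂ (Set.range Λ.col)
  have hrk := Λ.rank_eq_finrank_span_cols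
  choose g hg using hf1
  have hginj : Function.Injective g := by
    intro x y hxy
    apply hf3.injective
    rw [← hg x, ← hg y, hxy]
  refine ⟨Finset.univ.image g, ?_, ?_⟩
  · rw [Finset.card_image_of_injective _ hginj, Finset.card_univ, Fintype.card_fin, hrk]
  · intro c hc hΛ
    have h1 : ∑ x, c (g x) • f x = 0 := by
      rw [← hΛ, Matrix.mulVec_eq_sum]
      have h2 : ∑ j, MulOpposite.op (c j) • Λ.col j
          = ∑ j ∈ Finset.univ.image g, MulOpposite.op (c j) • Λ.col j := by
        symm
        apply Finset.sum_subset (Finset.subset_univ _)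
        intro j _ hj
        rw [hc j hj]
        simp
      have h3 : (∑ j, MulOpposite.op (c j) • Λᵀ j)
          = ∑ j, MulOpposite.op (c j) • Λ.col j := rfl
      rw [h3, h2, Finset.sum_image (fun x _ y _ h => hginj h)]
      refine Finset.sum_congr rfl fun x _ => ?_
      rw [hg x, op_smul_eq_smul]
    have h4 := (Fintype.linearIndependent_iff.1 hf3) (fun x => c (g x)) h1
    funext j
    by_cases hj : j ∈ Finset.univ.image g
    · obtain ⟨x, _, rfl⟩ := Finset.mem_image.1 hj
      exact h4 x
    · exact hc j hj

theorem lowest_eq_single {r : ℕ → ℕ} (D : Matrices G r) (w : ∀ i, Fin (r i) → G) (i : ℕ)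
    (k : Fin (r (i + 1))) (j : Fin (r i)) : lowest D w i k j
      = MonoidAlgebra.single (w (i + 1) k * (w i j)⁻¹) (lowestMatrix D w i k j) := by
  classical
  ext h
  rw [MonoidAlgebra.coeff_single, Finsupp.single_apply]
  by_cases hh : h • w i j = w (i + 1) k
  · have e : w (i + 1) k * (w i j)⁻¹ = h := by rw [← hh, smul_eq_mul, mul_inv_cancel_right]
    rw [(lowest_coeff D w i k j h).1 hh, if_pos e]
    unfold lowestMatrix
    rw [e]
  · have e : w (i + 1) k * (w i j)⁻¹ ≠ h := by
      intro e
      apply hh
      rw [← e, smul_eq_mul, inv_mul_cancel_right]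
    rw [(lowest_coeff D w i k j h).2 hh, if_neg e]

theorem kap_lowest_le {r : ℕ → ℕ} (D : Matrices G r) (w : ∀ i, Fin (r i) → G) (i : ℕ) :
    kap (lowest D w) i ≤ (r i : ℝ) - (lowestMatrix D w i).rank := by
  classical
  obtain ⟨S, hS1, hS2⟩ := exists_cols (lowestMatrix D w i)
  have h := vd_ker_le (opM (lowest D w i)) (opM_eqv _) S ?_
  · rw [Fintype.card_fin, hS1] at h
    exact h
  intro F hF hFS
  have key : ∀ g : G, (fun j => F (w i j * g, j)) = 0 := by
    intro g
    apply hS2
    · intro j hj
      exact hFS (w i j * g, j) hj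
    · funext k
      have h1 := congrArg (fun H : EE G (Fin (r (i + 1))) => H (w (i + 1) k * g, k)) hF
      have h2 : opM (lowest D w i) F (w (i + 1) k * g, k) = 0 := h1
      rw [opM_apply] at h2
      change ∑ j, lowestMatrix D w i k j * F (w i j * g, j) = 0
      rw [← h2]
      refine Finset.sum_congr rfl fun j _ => ?_
      rw [lowest_eq_single]
      have h3 : conv (MonoidAlgebra.single (w (i + 1) k * (w i j)⁻¹) (lowestMatrix D w i k j))
          (fun x => F (x, j)) (w (i + 1) k * g)
          = (Finsupp.single (w (i + 1) k * (w i j)⁻¹) (lowestMatrix D w i k j)).sum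
            (fun h c => c * F (h⁻¹ * (w (i + 1) k * g), j)) := rfl
      rw [h3, Finsupp.sum_single_index (by rw [zero_mul])]
      congr 3
      group
  ext ⟨x, j⟩
  have h5 := congrFun (key ((w i j)⁻¹ * x)) j
  change F (w i j * ((w i j)⁻¹ * x), j) = 0 at h5
  rw [mul_inv_cancel_left] at h5
  exact h5

theorem lowestMatrix_comp [LinearOrder G] (hG : OrderPreserving G G) {r : ℕ → ℕ}
    (D : Matrices G r) (hD : ∀ i, D (i + 1) * D i = 0) (w : ∀ i, Fin (r i) → G)
    (hw : IsHeight D w) (i : ℕ) : lowestMatrix D w (i + 1) * lowestMatrix D w i = 0 := by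
  classical
  have h := lowest_comp hG D hD w hw i
  ext l j
  have h1 := congrFun (congrFun h l) j
  have h2 : (lowest D w (i + 1) * lowest D w i) l j
      = MonoidAlgebra.single (w (i + 1 + 1) l * (w i j)⁻¹)
        ((lowestMatrix D w (i + 1) * lowestMatrix D w i) l j) := by
    rw [Matrix.mul_apply, Matrix.mul_apply]
    have h3 : ∀ k, lowest D w (i + 1) l k * lowest D w i k j
        = MonoidAlgebra.single (w (i + 1 + 1) l * (w i j)⁻¹)
          (lowestMatrix D w (i + 1) l k * lowestMatrix D w i k j) := by
      intro k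
      rw [lowest_eq_single, lowest_eq_single, MonoidAlgebra.single_mul_single]
      congr 1
      group
    rw [Finset.sum_congr rfl fun k _ => h3 k]
    exact (map_sum (MonoidAlgebra.singleAddHom (R := ℂ) (w (i + 1 + 1) l * (w i j)⁻¹)) _ _).symm
  rw [h2] at h1
  have h4 : MonoidAlgebra.single (w (i + 1 + 1) l * (w i j)⁻¹)
      ((lowestMatrix D w (i + 1) * lowestMatrix D w i) l j) = 0 := h1
  rwa [MonoidAlgebra.single_eq_zero] at h4

/-- heights exist -/
theorem exists_height [LinearOrder G] {r : ℕ → ℕ} (D : Matrices G r) (w0 : Fin (r 0) → G) :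
    ∃ w : ∀ i, Fin (r i) → G, w 0 = w0 ∧ IsHeight D w := by
  classical
  have step : ∀ i, ∀ v : Fin (r i) → G, ∃ u : Fin (r (i + 1)) → G,
      ∀ k j h, (D i k j).coeff h ≠ 0 → u k ≤ h • v j := by
    intro i v
    have : ∀ k, ∃ x : G, ∀ j h, (D i k j).coeff h ≠ 0 → x ≤ h • v j := by
      intro k
      let T : Finset G := Finset.univ.biUnion fun j =>
        (D i k j).coeff.support.image fun h => h • v j
      obtain ⟨x, hx⟩ : ∃ x : G, ∀ y ∈ T, x ≤ y := by
        rcases T.eq_empty_or_nonempty with hT | hT
        · exact ⟨1, fun y hy => by simp [hT] at hy⟩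
        · exact ⟨T.min' hT, fun y hy => T.min'_le y hy⟩
      refine ⟨x, fun j h hh => hx _ ?_⟩
      refine Finset.mem_biUnion.2 ⟨j, Finset.mem_univ _, ?_⟩
      exact Finset.mem_image.2 ⟨h, Finsupp.mem_support_iff.2 hh, rfl⟩
    choose u hu using this
    exact ⟨u, fun k => hu k⟩
  choose nxt hnxt using step
  let w : ∀ i, Fin (r i) → G := fun i => Nat.rec (motive := fun i => Fin (r i) → G) w0
    (fun i v => nxt i v) i
  exact ⟨w, rfl, fun i k j h hh => hnxt i (w i) k j h hh⟩

end proofs

open Pool.Agent.W649.ZL Pool.Agent.N309.LO Pool.Agent.N309.PD in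
/-- **Singer's conjecture and the lowest part of a complex.** Let `D` be a complex of finitely
generated free modules over the complex group algebra of `G`.

1. Let `G` act on a totally ordered set `X` by order-preserving maps and let heights in `X` be given
for the basis elements, such that the boundary operators do not decrease the heights. Then the lowest
part of `D` is a complex, its `L²`-Betti numbers are at least those of `D`, and the same holds for the
alternating sums `b n - b (n - 1) + …` (strong Morse inequalities).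

2. Let `G` have a left-invariant total order. Then there are such heights in `G`, with any given
heights in degree zero. For all such heights the matrices `Λ` of the lowest coefficients form a
complex of complex vector spaces. The `L²`-Betti numbers of `D` are at most the dimensions of the
cohomology of `Λ`, and the same holds for the alternating sums. Let `D` have length `n`, and let the
cohomology of `Λ` vanish outside degree `n / 2`; if Poincaré duality holds for the `L²`-Betti numbers
of `D` (as for closed manifolds), the vanishing in one of the degrees `i`, `n - i` is sufficient. Then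
the `L²`-Betti numbers of `D` vanish outside degree `n / 2`, and for `n = 2 m` the `m`-th one is the
integer `(-1)^m χ`, where `χ` is the Euler characteristic of `D`. -/
theorem result (G : Type u) [Group G] (r : ℕ → ℕ) (D : Matrices G r)
    (hD : ∀ i, D (i + 1) * D i = 0) :
    (∀ (X : Type v) [MulAction G X] [LinearOrder X], OrderPreserving G X →
      ∀ w : (i : ℕ) → Fin (r i) → X, IsHeight D w →
        (∀ i, lowest D w (i + 1) * lowest D w i = 0) ∧
        (∀ i, 0 ≤ betti D i ∧ betti D i ≤ betti (lowest D w) i) ∧
        ∀ n, altSum (betti D) n ≤ altSum (betti (lowest D w)) n) ∧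
    ∀ [LinearOrder G], (∀ g a b : G, a ≤ b → g * a ≤ g * b) →
      (∀ w₀ : Fin (r 0) → G, ∃ w : (i : ℕ) → Fin (r i) → G, w 0 = w₀ ∧ IsHeight D w) ∧
      ∀ w : (i : ℕ) → Fin (r i) → G, IsHeight D w →
        (∀ i, lowestMatrix D w (i + 1) * lowestMatrix D w i = 0) ∧
        (∀ i, betti D i ≤ dimH (lowestMatrix D w) i) ∧
        (∀ n, altSum (betti D) n ≤ altSum (dimH (lowestMatrix D w)) n) ∧
        ∀ n, (∀ i, n < i → r i = 0) →
          (∀ i, 2 * i ≠ n → dimH (lowestMatrix D w) i = 0 ∨
            i ≤ n ∧ betti D i = betti D (n - i) ∧ dimH (lowestMatrix D w) (n - i) = 0) →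
          (∀ i, 2 * i ≠ n → betti D i = 0) ∧
          ∀ m, n = 2 * m → betti D m = (-1) ^ m * ∑ i ∈ Finset.range (n + 1), (-1) ^ i * (r i : ℝ) := by
  classical
  refine ⟨?_, ?_⟩
  · intro X _ _ hX w hw
    have hB := lowest_comp hX D hD w hw
    have hk := kap_le hX D w hw
    exact ⟨hB, fun i => ⟨betti_nonneg D i, betti_mono D _ hD hB hk i⟩, altSum_mono D _ hD hB hk⟩
  · intro _ hG
    have hX : OrderPreserving G G := fun g a b h => hG g a b h
    refine ⟨exists_height D, ?_⟩
    intro w hw
    have hk : ∀ i, kap D i ≤ (r i : ℝ) - (lowestMatrix D w i).rank := fun i =>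
      (kap_le hX D w hw i).trans (kap_lowest_le D w i)
    have hle : ∀ i, betti D i ≤ dimH (lowestMatrix D w) i := by
      intro i
      cases i with
      | zero =>
        rw [betti_zero]
        exact hk 0
      | succ i =>
        rw [betti_succ D hD]
        change _ ≤ (r (i + 1) : ℝ) - (lowestMatrix D w (i + 1)).rank - (lowestMatrix D w i).rank
        linarith [hk i, hk (i + 1)]
    refine ⟨lowestMatrix_comp hX D hD w hw, hle, ?_, ?_⟩
    · intro n
      rw [altSum_eq (r := r) _ (kap D) (betti_zero D) (betti_succ D hD),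
        altSum_eq (r := r) (dimH (lowestMatrix D w))
          (fun i => (r i : ℝ) - (lowestMatrix D w i).rank) rfl (fun i => by
            change (r (i + 1) : ℝ) - (lowestMatrix D w (i + 1)).rank - (lowestMatrix D w i).rank
              = _
            ring)]
      linarith [hk n]
    · intro n hn hΛ
      have h0 : ∀ i, 2 * i ≠ n → betti D i = 0 := by
        intro i hi
        rcases hΛ i hi with h | ⟨_, h1, h2⟩
        · exact le_antisymm ((hle i).trans h.le) (betti_nonneg D i)
        · rw [h1]
          exact le_antisymm ((hle _).trans h2.le) (betti_nonneg D _)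
      refine ⟨h0, ?_⟩
      intro m hm
      -- the Euler characteristic
      have hkn : kap D n = r n := by
        have h1 := ker_add_range (opM (D n)) (opM_eqv _)
        have h2 : vd (LinearMap.range (opM (D n) : EE G (Fin (r n)) →ₗ[ℂ] EE G (Fin (r (n + 1)))))
            = 0 := by
          have h3 : LinearMap.range (opM (D n) : EE G (Fin (r n)) →ₗ[ℂ] EE G (Fin (r (n + 1)))) = ⊥ := by
            rw [eq_bot_iff]
            rintro _ ⟨F, rfl⟩
            rw [Submodule.mem_bot]
            have he : IsEmpty (Fin (r (n + 1))) := by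
              rw [hn (n + 1) (Nat.lt_succ_self n)]
              infer_instance
            ext ⟨x, k⟩
            exact he.elim k
          rw [h3, vd_bot]
        rw [h2, add_zero, Fintype.card_fin] at h1
        exact h1
      have h1 := altSum_eq (r := r) _ (kap D) (betti_zero D) (betti_succ D hD) n
      rw [hkn] at h1
      have h2 : ∀ k, (r k : ℝ) - cor r k = altSum (fun i => (r i : ℝ)) k := by
        intro k
        induction k with
        | zero =>
          unfold altSum cor
          simp
        | succ k ih =>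
          rw [altSum_succ, ← ih]
          rfl
      rw [h2] at h1
      unfold altSum at h1
      have h3 : ∑ i ∈ Finset.range (n + 1), (-1 : ℝ) ^ (n - i) * betti D i
          = (-1) ^ (n - m) * betti D m := by
        apply Finset.sum_eq_single m
        · intro i _ hi
          rw [h0 i (by omega), mul_zero]
        · intro h
          exact absurd (Finset.mem_range.2 (by omega)) h
      rw [h3] at h1
      have h4 : n - m = m := by omega
      rw [h4] at h1
      have h5 : (-1 : ℝ) ^ m * (-1) ^ m = 1 := by
        rw [← mul_pow]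
        norm_num
      have h6 : ∀ i ∈ Finset.range (n + 1), (-1 : ℝ) ^ (n - i) * (r i : ℝ)
          = (-1) ^ i * (r i : ℝ) := by
        intro i hi
        have h7 := Finset.mem_range.1 hi
        congr 1
        have h8 : (-1 : ℝ) ^ (n - i) * (-1) ^ i = 1 := by
          rw [← pow_add, Nat.sub_add_cancel (by omega), hm, pow_mul]
          norm_num
        have h9 : (-1 : ℝ) ^ i * (-1) ^ i = 1 := by
          rw [← mul_pow]
          norm_num
        calc (-1 : ℝ) ^ (n - i) = (-1) ^ (n - i) * ((-1) ^ i * (-1) ^ i) := by rw [h9, mul_one]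
          _ = ((-1) ^ (n - i) * (-1) ^ i) * (-1) ^ i := by ring
          _ = (-1) ^ i := by rw [h8, one_mul]
      rw [Finset.sum_congr rfl h6] at h1
      rw [← h1, ← mul_assoc, h5, one_mul]

end Pool.Agent.Results.MP_f80465_gt.LowestParts
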