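import Pool.Agent.U661.EI.GenLov

/-!
# The sign of the Euler characteristic and of all Gauss–Bonnet curvatures in two cones of negative
curvature, with the terms of order one and two

Q2 asks for `(-1)^m χ(M) > 0` for closed `2 m`-manifolds of negative sectional curvature. Let
`-R = δ unitT + K` with `δ ≥ 0` be of one of the following forms (`NegCone δ R`):

(A) `K = D + ∑ skewCurv (A a) - ∑ (h b ∧ h b)` for any number of skew forms `A a` and symmetric
forms `h b`, where `D` is a sum of Moore products of positive semidefinite quaternionic hermitian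
forms, with the condition `RevM` of reversal by isometries (which is empty if there are no `A a` and
`h b`);
(B) `K = P + skewCurv A + skewCurv B` for two skew forms, where `P` is an algebraic curvature tensor
with nonnegative curvature operator; then the sectional curvatures are at most `-δ`
(`NegativeSectional`).

`mixGB e j K` is the Gauss–Bonnet sum with `j` factors `K` and `m - j` factors `unitT`, a positive
multiple of the `j`-th Gauss–Bonnet (Lovelock, Killing–Lipschitz) curvature of `K`: for `j = 1` the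
scalar curvature, for `j = 2` `scal² - 4 |Ric|² + |K|²`, for `j = m` the Gauss–Bonnet–Chern
integrand.

(1) `Expansion`: for every tensor `R` the Gauss–Bonnet curvatures of `-R` are
`∑ C(j, i) δ^(j-i) mixGB e i K`, and `(-1)^m` times the Gauss–Bonnet–Chern integrand is
`1 / ((8 π)^m m!)` times the sum for `j = m`.
(2) `Pointwise`: in the cones all terms of these sums are nonnegative; hence every Gauss–Bonnet
curvature of `-R` is at least the one of the curvature `δ`, and `(-1)^m` times the
Gauss–Bonnet–Chern integrand is at least `bound2`, the sum of the terms of order zero, one and two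
in `K`, which are written out in terms of `scal`, `|Ric|²` and `|K|²`.
(3) `Integral`: the integrated inequality, for `δ` depending on the point; `(-1)^m χ > 0` if
`δ > 0` on a set of positive measure.
-/

set_option autoImplicit false

namespace Pool.Agent.Results.MP_f80465_gt.NegativeCurvatureCones

open Pool.Agent.W666.GB Pool.Agent.W669.HD Pool.Agent.U661.EI MeasureTheory

/-- The expansion of the Gauss–Bonnet curvatures. -/
def Expansion : Prop :=
  ∀ (m : ℕ) (V : Type) [NormedAddCommGroup V] [InnerProductSpace ℝ V]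
    (e : OrthonormalBasis (Fin m × Bool) ℝ V) (R : V → V → V → V → ℝ) (δ : ℝ),
    (∀ j, j ≤ m → mixGB e j (negT R) =
      ∑ i ∈ Finset.range (j + 1), j.choose i * δ ^ (j - i) * mixGB e i (restT δ R)) ∧
    (-1) ^ m * gbc e R = 1 / ((8 * Real.pi) ^ m * m.factorial) *
      ∑ i ∈ Finset.range (m + 1), m.choose i * δ ^ (m - i) * mixGB e i (restT δ R)

/-- At a point. -/
def Pointwise : Prop :=
  ∀ (m : ℕ) (V : Type) [NormedAddCommGroup V] [InnerProductSpace ℝ V]
    (e : OrthonormalBasis (Fin m × Bool) ℝ V) (R : V → V → V → V → ℝ) (δ : ℝ), 2 ≤ m →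
    0 ≤ δ → NegCone δ R →
    (∀ j, j ≤ m → 0 ≤ mixGB e j (restT δ R) ∧
      δ ^ j * mixGB e 0 unitT ≤ mixGB e j (negT R)) ∧ 0 < mixGB e 0 unitT ∧
    0 ≤ scal e (restT δ R) ∧ 0 ≤ secondGB e (restT δ R) ∧ roundGB m δ ≤ bound2 e δ R ∧
    bound2 e δ R ≤ (-1) ^ m * gbc e R

/-- The integrated inequality and the sign. -/
def Integral : Prop :=
  ∀ (m : ℕ) (M : Type) [MeasurableSpace M] (μ : Measure M) (K : CurvField m M) (δ : M → ℝ),
    2 ≤ m → (∀ p, 0 ≤ δ p ∧ NegCone (δ p) (K.R p)) → Integrable K.gb μ →
    ∫ p, bound2 (K.e p) (δ p) (K.R p) ∂μ ≤ (-1) ^ m * ∫ p, K.gb p ∂μ ∧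
      (μ {p | 0 < δ p} ≠ 0 → 0 < (-1) ^ m * ∫ p, K.gb p ∂μ)

/-- The second cone consists of tensors of negative sectional curvature. -/
def NegativeSectional : Prop :=
  ∀ (V : Type) [NormedAddCommGroup V] [InnerProductSpace ℝ V] (R : V → V → V → V → ℝ) (δ : ℝ),
    Pool.Agent.Y195.HF.TwoSkew δ R → ∀ x y : V, ‖x‖ = 1 → ‖y‖ = 1 → inner ℝ x y = 0 →
      R x y x y ≤ -δ

theorem result : Expansion ∧ Pointwise ∧ Integral ∧ NegativeSectional :=
  ⟨fun _ _ _ _ e R δ => ⟨fun _ hj => expansionJ e δ R hj, expansion e δ R⟩,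
    fun _ _ _ _ e _ _ hm hδ h => ⟨fun j hj => ⟨(pointwise2 e hm hδ h).1 j hj,
      lovelock e hδ h hj⟩, mix_zero_pos e unitT, (pointwise2 e hm hδ h).2⟩,
    fun _ _ _ μ K δ hm h hi => integral2 μ K δ hm h hi,
    fun _ _ _ _ _ h _ _ hx hy hxy => two_sec h hx hy hxy⟩

end Pool.Agent.Results.MP_f80465_gt.NegativeCurvatureCones
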