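import Pool.Agent.U410.ES.Sm

/-!
# The Singer conjecture for right-angled reflection manifolds over flag spheres with small join factors, or small links

Let the flag complex `L` of the finite graph `G` be a homology manifold with the homology of the sphere of dimension
`n - 1` (`HSph n G`). The quotients `M = Σ / H` of the Davis complex of the right-angled Coxeter group `W G` by the
torsion-free subgroups `H` of finite index are closed aspherical (homology) `n`-manifolds, manifolds if `L` is a
combinatorial sphere.

We prove the Singer conjecture for these manifolds if `L` is in the class `Sm`: it is enough that each join factor of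
`L` has dimension at most three or has at most `3 e - 1` vertices, where `e - 1` is its dimension (the least possible
number), or that `n` is even and the links of the vertices are of this kind, or that `n` is odd, the links of the
edges are of this kind, and the non-neighbours of some vertex `v` span a tree. For example, for `n = 5` it is enough
that there is a vertex `v` of `L` such that each triangle of `L` contains `v` or a neighbour of `v`, and for `n = 6`
it is enough that the links of all vertices have this property.

Idea: the non-neighbours of `v` are removed one by one, beginning with the leaves of the tree, together with the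
vertices of the link of `v` whose only neighbour in the remaining tree is this leaf.
-/

set_option autoImplicit false

namespace Pool.Agent.Results.MP_f80465_gt.SmallFactors

open Pool.Agent.W907.SG Pool.Agent.TH652.Above Pool.Agent.Y132.SI
open Pool.Agent.N13.EU (singer_hered)
open Pool.Agent.U410.ES (Sm hered_of_sm)

/-- Let the flag complex of `G` be a real homology sphere of dimension `n - 1` in the class `Sm`.
(1) The reduced `ℓ²`-homology of the Davis complex of `W G` vanishes in all degrees `i ≠ n / 2`.
(2) For `n = 2 m` the number `(-1)^m χ(W G)` is not negative, `χ(W G) = ∑_T (-1/2)^|T|` over the cliques `T`.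
(3) For each `ε > 0` there is a finite set `E` of nontrivial elements of `W G` such that for every subgroup `H` of
finite index of `W G` which contains no conjugate of an element of `E`, and for all `i`, the `i`-th real Betti number
of `H` (the dimension of the space of the `H`-invariant real harmonic `i`-chains of the Davis complex) differs by at
most `ε [W G : H]` from `0`, if `2 i ≠ n`, or from `(-1)^i χ(W G) [W G : H]`, if `2 i = n`. -/
theorem result : ∀ (n : ℕ) (V : Type) [Fintype V] [LinearOrder V] (G : SimpleGraph V), HSph n G →
    Sm G n (Finset.univ : Finset V) →
    (∀ i : ℕ, 2 * i ≠ n → L2Van G i) ∧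
    (∀ m : ℕ, n = 2 * m → 0 ≤ (-1 : ℚ) ^ m * chiW G) ∧
    ∀ ε : ℝ, 0 < ε → ∃ E : Finset (W G), (1 : W G) ∉ E ∧
      ∀ H : Subgroup (W G), H.FiniteIndex → (∀ g ∈ E, ∀ x : W G, x * g * x⁻¹ ∉ H) → ∀ i : ℕ,
          |(Module.finrank ℝ (HInv G H i) : ℝ) -
            (if 2 * i = n then (-1) ^ i * (chiW G : ℝ) else 0) * H.index| ≤ ε * H.index := by
  intro n V _ _ G hS hL
  have h1 : ∀ i : ℕ, 2 * i ≠ n → L2Van G i := fun i hi => singer_hered hS (hered_of_sm hS hL) i hi
  refine ⟨h1, ?_, fun ε hε => growth_free G n h1 ε hε⟩
  rintro m rfl
  exact chi_sign G fun i hi => h1 i (by omega)

end Pool.Agent.Results.MP_f80465_gt.SmallFactors
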