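import Mathlib
import Pool.Agent.U297.LG.Small

/-!
# The Singer conjecture for reflection groups of spheres with a `γ`-polynomial of small degree

Let `L` be the flag complex of the finite graph `G`, and suppose that it is a real homology manifold with the real
homology of the `(n-1)`-sphere (`HSph n G`). If `L` is a triangulation of the sphere whose Davis complex is a
manifold then the torsion free subgroups `Γ` of finite index of the right-angled Coxeter group `W G` are the
fundamental groups of closed aspherical `n`-manifolds `M`, tiled by `[W G : Γ]` copies of the dual cell of `L`.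
The Singer conjecture for these `M` is the vanishing of the `ℓ²`-homology of the Davis complex of `G` in all degrees
`i`, `2 i ≠ n`. It is known for `n ≤ 4` (Davis and Okun). For `n ≥ 5` there are results for special classes of `L`.

The `γ`-numbers `c_i`, `i ≤ n / 2`, of `L` are defined by `∑ x^|S| = ∑ c_i (x + x^2)^i (1 + 2 x)^(n - 2 i)`.

(1) Without any further hypothesis, in all dimensions: if `c_i = 0` for all `i ≥ 2`, then the Singer conjecture
holds for `L`, the group `W G` has no `ℓ²`-homology at all if `n ≥ 3`, and no special subgroup of `W G` has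
`ℓ²`-homology in a degree `≥ 2`. The corresponding Betti numbers of the finite covers grow sublinearly.

(2) In general, if `c_i = 0` for all `i ≥ l`, then the Singer conjecture for `L` follows from the vanishing above the
middle for the links of dimension at most `2 l - 1`; and no special subgroup has `ℓ²`-homology in a degree `≥ l`.
So the Singer conjecture for the flag homology spheres of dimension less than `2 l` implies the Singer conjecture
for all flag homology spheres, of any dimension, with `γ`-polynomial of degree less than `l`.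

(3) If the `ℓ²`-homology of the groups of the links of dimension at most `2 l - 1` vanishes above the middle, and
`2 l ≤ n`, then it is equivalent that `c_i = 0` for all `i ≥ l`, that `∑ C(i, l) c_i / 4^i = 0`, that the sum of the
Euler characteristics of the groups of the links of dimension `2 l - 1` is zero, and that no special subgroup of
`W G` has `ℓ²`-homology in a degree `≥ l`.
-/

set_option autoImplicit false

namespace Pool.Agent.Results.MP_f80465_gt.SmallGammaDegree

open Pool.Agent.W907.SG Pool.Agent.W907.SM Pool.Agent.TH652.Above Pool.Agent.Y132.SI Pool.Agent.N13.EU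
open Pool.Agent.U297.GD Pool.Agent.U297.LG
open Polynomial (X C)

/-- `c 0, c 1, …, c (n / 2)` are the `γ`-numbers of the flag complex of `G`, of dimension `n - 1`: the `f`-polynomial
`∑ X ^ |S|` (over all simplices `S`, the empty one included) is `∑ c i X ^ i (1 + X) ^ i (1 + 2 X) ^ (n - 2 i)`. -/
def IsGammaVector (n : ℕ) {V : Type} [Fintype V] (G : SimpleGraph V) (c : ℕ → ℚ) : Prop :=
  fpoly G = ∑ i ∈ Finset.range (n / 2 + 1), C (c i) * (X ^ i * (1 + X) ^ i * (1 + 2 * X) ^ (n - 2 * i))

/-- The `ℓ²`-homology of the right-angled Coxeter groups of the links `A` of the simplices `T` with at least `n - r`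
vertices (these links have dimension at most `r - 1`) vanishes above the middle. -/
def LinksVanish (r n : ℕ) {V : Type} [Fintype V] [LinearOrder V] (G : SimpleGraph V) : Prop :=
  ∀ T A : Finset V, G.IsClique (T : Set V) → (∀ v, v ∈ A ↔ ∀ t ∈ T, G.Adj v t) → n ≤ T.card + r →
    ∀ i : ℕ, n < 2 * i + T.card → L2Van (G.induce (A : Set V)) i

/-- The `ℓ²`-homology of `W G` vanishes in all degrees `i` with `2 i ≠ n`, also in the degree `n / 2` if `2 l ≤ n`;
the one of all special subgroups `W_A` vanishes in the degrees `i ≥ l`. For each `ε > 0` the `i`-th Betti numbers of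
the subgroups `H` of finite index, without conjugates of the elements of a finite set, are at most `ε` times the
index, for the same `i`. -/
def Conclusion (n l : ℕ) {V : Type} [Fintype V] [LinearOrder V] (G : SimpleGraph V) : Prop :=
  (∀ i : ℕ, 2 * i ≠ n → L2Van G i) ∧ (2 * l ≤ n → ∀ i : ℕ, L2Van G i) ∧
  (∀ (A : Finset V) (i : ℕ), l ≤ i → L2Van (G.induce (A : Set V)) i) ∧
  (∀ ε : ℝ, 0 < ε → ∃ E : Finset (W G), (1 : W G) ∉ E ∧ ∀ H : Subgroup (W G), H.FiniteIndex →
    (∀ e ∈ E, ∀ x : W G, x * e * x⁻¹ ∉ H) → ∀ i : ℕ, (2 * i ≠ n ∨ 2 * l ≤ n) →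
      (Module.finrank ℝ (HInv G H i) : ℝ) ≤ ε * H.index) ∧
  (∀ (A : Finset V) (ε : ℝ), 0 < ε → ∃ E : Finset (W (G.induce (A : Set V))),
    (1 : W (G.induce (A : Set V))) ∉ E ∧ ∀ H : Subgroup (W (G.induce (A : Set V))), H.FiniteIndex →
      (∀ e ∈ E, ∀ x : W (G.induce (A : Set V)), x * e * x⁻¹ ∉ H) → ∀ i : ℕ, l ≤ i →
        (Module.finrank ℝ (HInv (G.induce (A : Set V)) H i) : ℝ) ≤ ε * H.index)

theorem links_of {V : Type} [Fintype V] [LinearOrder V] {G : SimpleGraph V} {n r : ℕ} (h : LinksVanish r n G) :
    LinksUpTo r n G := by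
  classical
  intro T hT hr i hi
  obtain ⟨A, hA⟩ : ∃ A : Finset V, (A : Set V) = lk G T := ⟨(Set.toFinite (lk G T)).toFinset, by simp⟩
  have h1 := Pool.Agent.N13.EU.lv_of (h T A hT (fun v => by
    rw [← Finset.mem_coe, hA]
    rfl) hr i hi)
  rwa [hA] at h1

theorem conclude {V : Type} [Fintype V] [LinearOrder V] {G : SimpleGraph V} {n l : ℕ} {c : ℕ → ℚ}
    (hS : HSph n G) (hl : 1 ≤ l) (hL : LinksUpTo (2 * l) n G) (hc : IsGammaVector n G c)
    (h0 : ∀ i, l ≤ i → i ≤ n / 2 → c i = 0) : Conclusion n l G := by
  obtain ⟨h1, h2, h3⟩ := small hS hl hL hc h0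
  refine ⟨h2, h3, h1, fun ε hε => ?_, fun A ε hε => growth_small h1 A ε hε⟩
  exact Pool.Agent.R703.MO.growth_set G (fun i => 2 * i ≠ n ∨ 2 * l ≤ n)
    (fun i hi => by
      rcases hi with hi | hi
      · exact h2 i hi
      · exact h3 hi i) ε hε

/-- **Result.** See the text above: (1) spheres with `c_i = 0` for all `i ≥ 2`, unconditionally; (2) spheres with
`c_i = 0` for all `i ≥ l`, given the links of dimension at most `2 l - 1`, or given the Singer conjecture for all
flag homology spheres of dimension less than `2 l`; (3) equivalent conditions. -/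
theorem result :
    (∀ (n : ℕ) (V : Type) [Fintype V] [LinearOrder V] (G : SimpleGraph V), HSph n G →
      ∃ c : ℕ → ℚ, IsGammaVector n G c) ∧
    (∀ (n : ℕ) (V : Type) [Fintype V] [LinearOrder V] (G : SimpleGraph V) (c : ℕ → ℚ), HSph n G →
      IsGammaVector n G c → (∀ i, 2 ≤ i → i ≤ n / 2 → c i = 0) →
        Conclusion n 2 G ∧ (3 ≤ n → ∀ i : ℕ, L2Van G i)) ∧
    (∀ (n l : ℕ) (V : Type) [Fintype V] [LinearOrder V] (G : SimpleGraph V) (c : ℕ → ℚ), HSph n G →
      IsGammaVector n G c → 1 ≤ l → (∀ i, l ≤ i → i ≤ n / 2 → c i = 0) →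
        (LinksVanish (2 * l) n G ∨
          ∀ m ≤ 2 * l, ∀ (U : Type) [Fintype U] [LinearOrder U] (H : SimpleGraph U), HSph m H →
            ∀ i : ℕ, 2 * i ≠ m → L2Van H i) → Conclusion n l G) ∧
    (∀ (n l : ℕ) (V : Type) [Fintype V] [LinearOrder V] (G : SimpleGraph V) (c : ℕ → ℚ), HSph n G →
      IsGammaVector n G c → 1 ≤ l → 2 * l ≤ n → LinksVanish (2 * l) n G →
        ((∀ (A : Finset V) (i : ℕ), l ≤ i → L2Van (G.induce (A : Set V)) i) ↔
          ∀ i, l ≤ i → i ≤ n / 2 → c i = 0) ∧
        ((∀ (A : Finset V) (i : ℕ), l ≤ i → L2Van (G.induce (A : Set V)) i) ↔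
          ∑ i ∈ Finset.range (n / 2 + 1), (i.choose l : ℚ) * c i / 4 ^ i = 0) ∧
        ((∀ (A : Finset V) (i : ℕ), l ≤ i → L2Van (G.induce (A : Set V)) i) ↔
          chiSum G (n - 2 * l) = 0)) := by
  refine ⟨?_, ?_, ?_, ?_⟩
  · intro n V _ _ G hS
    exact exists_gsum hS
  · intro n V _ _ G c hS hc h0
    have h1 : Conclusion n 2 G := conclude hS (by norm_num) (linksUpTo_four hS) hc h0
    refine ⟨h1, fun hn i => ?_⟩
    rcases Nat.lt_or_ge n 4 with h | h
    · exact h1.1 i (by omega)
    · exact h1.2.1 h i
  · intro n l V _ _ G c hS hc hl h0 hL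
    refine conclude hS hl ?_ hc h0
    rcases hL with h | h
    · exact links_of h
    · exact linksUpTo_of_singer hS h
  · intro n l V _ _ G c hS hc hl hn hL
    obtain ⟨-, h2, h3⟩ := tau_main hS hl hn (links_of hL) hc
    exact ⟨h3.symm.trans h2, h3.symm, h3.symm.trans (tau_zero_iff hn hc)⟩

end Pool.Agent.Results.MP_f80465_gt.SmallGammaDegree
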